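import Pool.Agent.Lib.MP_33b3f9_ag.M8.CL.Del
import Pool.Agent.Lib.MP_33b3f9_ag.M8.E3.Nd
import Pool.Agent.Lib.MP_33b3f9_ag.M4.CL.Ind
import Pool.Agent.Lib.MP_33b3f9_ag.M4.CL.ZF

/-! The stabiliser of the colour has bounded denominators; invariant forms. -/

set_option autoImplicit false

namespace M8.CL

open M4 M4.CL Matrix Filter Topology

variable {ι : Type} [Fintype ι] [DecidableEq ι] {m : ℕ} {A : Set (RM ι)}
  {E : Type} [NormedAddCommGroup E] [NormedSpace ℂ E]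

theorem cx_inv (g : GS ι m) : E3.cx (mx g⁻¹) * E3.cx (mx g) = 1 := by
  rw [← E3.cx_mul, mul_eq_one_comm.1 (mx_inv g), E3.cx_one]

theorem gC_conj (g : GD A m) {X : E3.MC ι} (hX : X ∈ E3.gC A) :
    E3.cx (mx g.1) * X * E3.cx (mx g.1⁻¹) ∈ E3.gC A := by
  obtain ⟨μ, -, h2⟩ := mx_sim g.1
  refine ⟨E3.spC_conj h2 (mx_inv g.1) hX.1, fun y hy => ?_⟩
  have h3 : mx g.1⁻¹ * y = y * mx g.1⁻¹ := (g⁻¹).2 y hy
  rw [mul_assoc, ← E3.cx_mul, h3, E3.cx_mul, ← mul_assoc, mul_assoc _ X, hX.2 y hy, ← mul_assoc,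
    ← E3.cx_mul, g.2 y hy, E3.cx_mul]
  simp only [mul_assoc]

/-- Irreducibility passes to a set that contains a conjugate. -/
theorem irr_conj {G H : Set (RM ι)} (hi : E3.Irr G (E3.gC A)) (g : GD A m)
    (h : ∀ x ∈ G, mx g.1⁻¹ * x * mx g.1 ∈ H) : E3.Irr H (E3.gC A) := by
  intro k hk hs
  have e := cx_inv g.1
  have e' := mul_eq_one_comm.1 e
  have e1 : ∀ X : E3.MC ι, E3.cx (mx g.1⁻¹) * (E3.cx (mx g.1) * X) = X := fun X => by
    rw [← mul_assoc, e, one_mul]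
  have e2 : ∀ X : E3.MC ι, E3.cx (mx g.1) * (E3.cx (mx g.1⁻¹) * X) = X := fun X => by
    rw [← mul_assoc, e', one_mul]
  have hj : Function.Injective
      (LinearMap.mulLeftRight ℂ (E3.cx (mx g.1), E3.cx (mx g.1⁻¹))) := fun X Y hXY => by
    have h1 := congrArg (fun Z => E3.cx (mx g.1⁻¹) * Z * E3.cx (mx g.1)) hXY
    simpa only [LinearMap.mulLeftRight_apply, mul_assoc, e, e1, mul_one] using h1
  rcases hi (k.map (LinearMap.mulLeftRight ℂ (E3.cx (mx g.1), E3.cx (mx g.1⁻¹))))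
    (by
      rintro _ ⟨X, hX, rfl⟩
      exact gC_conj g (hk hX))
    (by
      rintro x hx x' hxx _ ⟨X, hX, rfl⟩
      refine ⟨_, hs _ (h x hx) (mx g.1⁻¹ * x' * mx g.1) ?_ X hX, ?_⟩
      · rw [mul_assoc, mul_assoc, ← mul_assoc (mx g.1), ← mul_assoc (mx g.1), mx_inv, one_mul,
          ← mul_assoc x, hxx, one_mul, mul_eq_one_comm.1 (mx_inv g.1)]
      · simp only [LinearMap.mulLeftRight_apply, E3.cx_mul, mul_assoc, e', e2, mul_one]) with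
    h1 | h1
  · exact Or.inl (eq_bot_iff.2 fun X hX => hj (by
      rw [map_zero]
      exact h1.le ⟨X, hX, rfl⟩))
  · refine Or.inr (le_antisymm hk fun X hX => ?_)
    obtain ⟨Y, hY, h2⟩ := h1.ge (gC_conj g hX)
    exact hj h2 ▸ hY

/-- The matrices of the symplectic elements of the stabiliser of the colour. -/
def DM (S : Setup (GD A m) (CX A)) : Submonoid (RM ι) where
  carrier := (fun δ : GD A m => mx δ.1) '' {δ | δ ∈ S.Del ⊓ SpX A m}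
  one_mem' := ⟨1, (S.Del ⊓ SpX A m).one_mem, mx_one⟩
  mul_mem' := by
    rintro _ _ ⟨a, ha, rfl⟩ ⟨b, hb, rfl⟩
    exact ⟨a * b, (S.Del ⊓ SpX A m).mul_mem ha hb, mx_mul a.1 b.1⟩

theorem DM_sim {S : Setup (GD A m) (CX A)} : ∀ g ∈ DM S, Sim g 1 := by
  rintro _ ⟨δ, hδ, rfl⟩
  exact hδ.2

theorem DM_inv {S : Setup (GD A m) (CX A)} : ∀ g ∈ DM S, ∃ g' ∈ DM S, g * g' = 1 := by
  rintro _ ⟨δ, hδ, rfl⟩
  exact ⟨_, ⟨δ⁻¹, (S.Del ⊓ SpX A m).inv_mem hδ, rfl⟩, mx_inv δ.1⟩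

theorem DM_cong {S : Setup (GD A m) (CX A)} : ∀ g ∈ DM S, Cong 8 m g := by
  rintro _ ⟨δ, -, rfl⟩
  exact mx_cong δ.1

theorem DM_comm {S : Setup (GD A m) (CX A)} : ∀ g ∈ DM S, ∀ y ∈ A, g * y = y * g := by
  rintro _ ⟨δ, -, rfl⟩
  exact δ.2

variable {V : Germ ι E}

theorem Con.irr {S : Setup (GD A m) (CX A)} (h : Con S V) (g₀ : GD A m)
    {G : Subgroup (symplecticGroup ι ℤ)} (hv : ∀ g ∈ G, Tf V (mx g₀.1) g)
    (hG : ∀ g ∈ G, ∃ x : GD A m, mx x.1 = zr g.1)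
    (hi : E3.Irr ((fun g : symplecticGroup ι ℤ => zr g.1) '' G) (E3.gC A)) :
    E3.Irr (DM S) (E3.gC A) := by
  refine irr_conj hi g₀ ?_
  rintro _ ⟨g, hg, rfl⟩
  obtain ⟨x, hx⟩ := hG g hg
  refine ⟨g₀⁻¹ * x * g₀, ⟨h.conj_mem g₀ x hv hg hx, ?_⟩, ?_⟩
  · have h1 := SpX_conj g₀⁻¹ (x := x) (mem_SpX.2 (hx ▸ (sim_zr_iff _).2 g.2))
    rwa [inv_inv] at h1
  · change mx g₀.1⁻¹ * mx x.1 * mx g₀.1 = _
    rw [hx]

theorem exists_gd {a b g β : ZM ι} {M : ℕ} (hM : 0 < M) (hd : M ∣ m) (hs : Sim (zr g) M)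
    (h : g = 1 + (8 : ℤ) • β) (ha : g * a = a * g) (hb : g * b = b * g) :
    ∃ x : GD {zr a, zr b} m, mx x.1 = zr g := by
  obtain ⟨x, hx⟩ := exists_mx hM hd hs h
  refine ⟨⟨x, ?_⟩, hx⟩
  rintro y (rfl | rfl)
  · rw [hx, ← zr_mul, ← zr_mul, ha]
  · rw [hx, ← zr_mul, ← zr_mul, hb]

theorem Con.bounded {a b : ZM ι} {p q : ℕ} (hP : E3.Pel a b p q)
    {S : Setup (GD {zr a, zr b} m) (CX {zr a, zr b})} (h : Con S V) (hm : m ≠ 0) {n : ℕ}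
    (hq : S.Lv n ≤ S.Del) (hi : E3.Irr (DM S) (E3.gC {zr a, zr b})) {k : ℕ} {f : HH ι → ℂ}
    (hf : f ∈ MF ι (8 * k)) {x : CX {zr a, zr b}} (h0 : f x.1.t ≠ 0)
    (hs : S.MS k (res _ (lift k f))) (hI : res _ (lift k f) ∈ S.I) :
    ∃ j : ℕ, ∀ g ∈ DM S, IntM ((m : ℝ) ^ j • g) := by
  by_contra hn
  have hB : E3.Big a b (32 * m ^ n) (DM S) :=
    ⟨DM_sim, DM_inv, fun g hg g' hg' => (DM S).mul_mem hg hg',
      fun g hg => DM_comm g hg _ (Or.inl rfl), fun g hg => DM_comm g hg _ (Or.inr rfl),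
      fun γ β h1 h2 h3 h4 => by
        have hs := (sim_zr_iff γ).2 h1
        obtain ⟨y, hy⟩ := exists_gd (m := m) (β := ((4 * m ^ n : ℕ) : ℤ) • β) (M := 1) one_pos
          (one_dvd m) (by simpa using hs) (by
            rw [h2, smul_smul]
            congr 2
            push_cast
            ring) h3 h4
        refine ⟨y, ⟨hq ?_, mem_SpX.2 (hy ▸ hs)⟩, hy⟩
        rw [h.Lv]
        exact mem_LvD.2 ⟨hy ▸ hs, β, by rw [hy, h2]⟩⟩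
  have hN : E3.ND (DM S : Set (RM ι)) := hB.nd hP (by positivity)
    (fun g hg => (DM_cong g hg).intM) fun j => by
      by_contra hc
      exact hn ⟨j, fun g hg => by_contra fun h => hc ⟨g, hg, h⟩⟩
  have hO : E3.Orb (DM S : Set (RM ι)) {w | ∃ g ∈ DM S, w = act g S.a.1.t.1} :=
    ⟨DM_sim, DM_inv, by
      rintro _ ⟨g, hg, rfl⟩
      exact inH_act (DM_sim g hg) one_pos S.a.1.t.2, by
      rintro g hg _ ⟨g', hg', rfl⟩
      exact ⟨g * g', (DM S).mul_mem hg hg',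
        (act_mul (den_det_ne_zero (DM_sim g' hg') one_pos S.a.1.t.2) (den_det_ne_zero
          (DM_sim g hg) one_pos (inH_act (DM_sim g' hg') one_pos S.a.1.t.2))).symm⟩⟩
  obtain ⟨F, hF, hF'⟩ := x_hol hf
  refine h0 ?_
  rw [hF']
  refine E3.lim_fix (z := S.a.1.t.1) hO DM_comm hN subset_rfl hi
    ⟨1, (DM S).one_mem, (act_one _).symm⟩ x.1.t.2 S.a.2 x.2 hF ?_
  rintro _ ⟨_, ⟨δ, hδ, rfl⟩, rfl⟩
  have h1 := S.ev _ ((hδ.1 k _ hs).2 hI)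
  have h2 : S.a.1.l = 1 := by rw [h.a]; rfl
  change (S.a.1.l / wt (mx δ.1) S.a.1.t.1) ^ k * f (aH (mx δ.1) S.a.1.t) = 0 at h1
  have h3 : Sim (mx δ.1) 1 := hδ.2
  rw [hF', aH_val h3 one_pos, h2] at h1
  exact (mul_eq_zero.1 h1).resolve_left
    (pow_ne_zero _ (div_ne_zero one_ne_zero (M4.CL.wt_ne_zero h3 one_pos _)))

theorem Con.forms [FiniteDimensional ℂ E] {S : Setup (GD A m) (CX A)} (h : Con S V) (hm : Odd m)
    (hi : Function.Injective (fderiv ℂ (fun (s : E) (i j : ι) => V.w s i j) 0)) {j : ℕ}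
    (hj : ∀ g ∈ DM S, IntM ((m : ℝ) ^ j • g)) {D : ℕ} (hD : Module.finrank ℂ E + 1 = D) :
    ∃ Φ : Fin D → CX A → ℂ, (∀ i, Φ i ∈ S.F 8) ∧ (∀ i, Inv (S.Del ⊓ SpX A m) (Φ i)) ∧
      ∀ p : MvPolynomial (Fin D) ℂ, MvPolynomial.aeval Φ p ∈ S.I → p = 0 := by
  obtain ⟨U, hU, hU'⟩ := exists_forms (DM S) DM_sim DM_inv hm hj DM_cong
  have h1 : ∀ f ∈ U, lift 8 f ∈ FF ι 8 := fun f hf =>
    lift_mem_fil (M := fun i => MF ι (8 * i)) le_rfl (hU f hf).1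
  obtain ⟨u, hu, hu'⟩ := exists_indep (E := ℂ × E) (D := D) (x₀ := (1, 0))
    (by rw [Module.finrank_prod, Module.finrank_self, add_comm, hD])
    ((fun f q => lift 8 f (V.c q)) '' U)
    (by rintro _ ⟨f, hf, rfl⟩; exact V.analyticAt_c (h1 f hf))
    (fun ξ hξ => V.imm hi (fun f hf => (hU f hf).1) (hU' V.a) (k := 8) (by norm_num) ξ
      fun f hf => hξ _ ⟨f, hf, rfl⟩)
  choose f hf hf' using hu
  refine ⟨fun i => res A (lift 8 (f i)), fun i => h.F ▸ mem_resF.2 ⟨_, h1 _ (hf i), rfl⟩,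
    fun i δ hδ => ?_, fun p hp => ?_⟩
  · funext x
    exact (lift_cact 8 (mx δ.1) (f i) x.1).trans (by rw [(hU _ (hf i)).2 _ ⟨δ, hδ, rfl⟩]; rfl)
  · rw [← MvPolynomial.comp_aeval_apply, h.I, Germ.mem_I] at hp
    refine hu' p (hp.mono fun q hq => ?_)
    rw [← hq]
    have h2 := MvPolynomial.comp_aeval_apply (fun i => lift 8 (f i))
      (Pi.evalAlgHom ℂ (fun _ : Cn ι => ℂ) (V.c q)) p
    refine Eq.trans ?_ h2.symm
    rw [MvPolynomial.aeval_eq_eval]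
    congr 2
    funext i
    rw [← hf' i]
    rfl

end M8.CL
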