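import Pool.Agent.Lib.MP_33b3f9_ag.M4.CL.Del

/-! The cone over the fixed locus of a set of matrices, and the group that acts on it. -/

set_option autoImplicit false

namespace M8.CL

open M4 M4.CL Matrix Filter Topology

variable {ι : Type} [Fintype ι] [DecidableEq ι] {m : ℕ} {A : Set (RM ι)}

/-- The similitudes that commute with `A`. -/
def GD (A : Set (RM ι)) (m : ℕ) : Subgroup (GS ι m) where
  carrier := {x | ∀ y ∈ A, mx x * y = y * mx x}
  one_mem' := fun y _ => by rw [mx_one, one_mul, mul_one]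
  mul_mem' := fun {g h} hg hh y hy => by
    rw [mx_mul, mul_assoc, hh y hy, ← mul_assoc, hg y hy, mul_assoc]
  inv_mem' := fun {g} hg y hy => by
    have e := mx_inv g
    rw [← mul_one (mx g⁻¹ * y), ← e, ← mul_assoc, mul_assoc (mx g⁻¹), ← hg y hy, ← mul_assoc,
      mul_eq_one_comm.1 e, one_mul]

/-- The cone over the fixed locus. -/
def CX (A : Set (RM ι)) : Type := {x : Cn ι // ∀ y ∈ A, cst x.t.1 * y = y * cst x.t.1}

theorem cst_smul (g : GD A m) (x : CX A) :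
    ∀ y ∈ A, cst (g.1 • x.1).t.1 * y = y * cst (g.1 • x.1).t.1 := fun y hy => by
  obtain ⟨μ, h1, h2⟩ := mx_sim g.1
  have h3 : (g.1 • x.1).t.1 = act (mx g.1) x.1.t.1 := aH_val h2 h1 _
  have h4 := M4.cst_act h2 h1 x.1.t.2
  rw [h3]
  refine (Sim.isUnit' h2 h1.ne').mul_right_cancel ?_
  rw [mul_assoc, ← g.2 y hy, ← mul_assoc, h4, mul_assoc, x.2 y hy, ← mul_assoc, g.2 y hy,
    mul_assoc, mul_assoc, h4]

noncomputable instance : MulAction (GD A m) (CX A) where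
  smul g x := ⟨g.1 • x.1, cst_smul g x⟩
  one_smul x := Subtype.ext (one_smul (GS ι m) x.1)
  mul_smul g h x := Subtype.ext (mul_smul g.1 h.1 x.1)

theorem smul_val (g : GD A m) (x : CX A) : (g • x).1 = g.1 • x.1 := rfl

/-- Restriction of functions. -/
def res (A : Set (RM ι)) : (Cn ι → ℂ) →ₐ[ℂ] (CX A → ℂ) where
  toFun F x := F x.1
  map_one' := rfl
  map_mul' _ _ := rfl
  map_zero' := rfl
  map_add' _ _ := rfl
  commutes' _ := rfl

theorem res_apply (F : Cn ι → ℂ) (x : CX A) : res A F x = F x.1 := rfl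

theorem sl_res (g : GD A m) (F : Cn ι → ℂ) : sl g (res A F) = res A (sl g.1 F) := rfl

/-- The restrictions of a filtered space of functions. -/
def resF (A : Set (RM ι)) (M : ℕ → Submodule ℂ (Cn ι → ℂ)) (k : ℕ) : Submodule ℂ (CX A → ℂ) :=
  (M k).map (res A).toLinearMap

theorem mem_resF {M : ℕ → Submodule ℂ (Cn ι → ℂ)} {k : ℕ} {F : CX A → ℂ} :
    F ∈ resF A M k ↔ ∃ G ∈ M k, res A G = F := Iff.rfl

theorem resF_mono {M : ℕ → Submodule ℂ (Cn ι → ℂ)} (h : Monotone M) : Monotone (resF A M) :=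
  fun _ _ hk => Submodule.map_mono (h hk)

theorem resF_mul {M : ℕ → Submodule ℂ (Cn ι → ℂ)}
    (h : ∀ {k l : ℕ} {F G : Cn ι → ℂ}, F ∈ M k → G ∈ M l → F * G ∈ M (k + l)) {k l : ℕ}
    {F G : CX A → ℂ} (hF : F ∈ resF A M k) (hG : G ∈ resF A M l) : F * G ∈ resF A M (k + l) := by
  obtain ⟨F, h1, rfl⟩ := mem_resF.1 hF
  obtain ⟨G, h2, rfl⟩ := mem_resF.1 hG
  exact mem_resF.2 ⟨F * G, h h1 h2, map_mul _ F G⟩

variable {E : Type} [NormedAddCommGroup E] [NormedSpace ℂ E]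

/-- The functions on the cone over the fixed locus that vanish on the cone over the germ. -/
def IX (V : Germ ι E) (hV : ∀ s, ∀ y ∈ A, cst (V.p s).1 * y = y * cst (V.p s).1) :
    Ideal (CX A → ℂ) where
  carrier := {F | ∀ᶠ q in 𝓝 ((1 : ℂ), (0 : E)), F ⟨V.c q, hV q.2⟩ = 0}
  zero_mem' := Eventually.of_forall fun _ => rfl
  add_mem' := fun hf hg => (hf.and hg).mono fun q h => by simp [h.1, h.2]
  smul_mem' := fun c _ hf => hf.mono fun q h => by simp [h]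

theorem res_mem_IX {V : Germ ι E} {hV : ∀ s, ∀ y ∈ A, cst (V.p s).1 * y = y * cst (V.p s).1}
    {F : Cn ι → ℂ} : res A F ∈ IX V hV ↔ F ∈ V.I := Iff.rfl

/-- The principal congruence subgroups. -/
def LvD (A : Set (RM ι)) (m N : ℕ) : Subgroup (GD A m) := (LvG ι m N).subgroupOf (GD A m)

/-- The symplectic elements. -/
def SpX (A : Set (RM ι)) (m : ℕ) : Subgroup (GD A m) := (SpG ι m).subgroupOf (GD A m)

theorem mem_LvD {N : ℕ} {x : GD A m} : x ∈ LvD A m N ↔ x.1 ∈ LvG ι m N := Iff.rfl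

theorem mem_SpX {x : GD A m} : x ∈ SpX A m ↔ Sim (mx x.1) 1 := Iff.rfl

theorem LvD_fin {N : ℕ} (hN : N ≠ 0) (N' : ℕ) : (LvD A m N).relIndex (LvD A m N') ≠ 0 := by
  rw [LvD, LvD, Subgroup.subgroupOf, Subgroup.relIndex_comap]
  exact fun h => LvG_fin hN N' (Subgroup.relIndex_eq_zero_of_le_right
    (Subgroup.map_comap_le _ _) h)

theorem SpX_conj (g : GD A m) {x : GD A m} (hx : x ∈ SpX A m) : g * x * g⁻¹ ∈ SpX A m :=
  (inferInstance : (SpG ι m).Normal).conj_mem x.1 hx g.1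

theorem SpX_comm (g h : GD A m) : g * h * g⁻¹ * h⁻¹ ∈ SpX A m := commutator_mem g.1 h.1

theorem exists_scalar [Nonempty ι] (g : GD A m) :
    ∃ z : GD A m, (∀ x : CX A, z • x = x) ∧ g * g * z ∈ SpX A m := by
  obtain ⟨μ, h1, h2⟩ := mx_sim g.1
  have h3 : Cong 8 m (μ • (1 : RM ι)) :=
    grp_adj_mul h2 ▸ (grp_cong_adj (mx_cong g.1)).mul (mx_cong g.1)
  have h4 : Cong 8 m (μ⁻¹ • (1 : RM ι)) :=
    grp_adj_mul (grp_sim_inv h2 h1.ne') ▸ (grp_cong_adj (mx_cong g.1⁻¹)).mul (mx_cong g.1⁻¹)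
  have h5 : (μ⁻¹ • (1 : RM ι)) * (μ • (1 : RM ι)) = 1 := by
    rw [Matrix.smul_mul, Matrix.one_mul, smul_smul, inv_mul_cancel₀ h1.ne', one_smul]
  refine ⟨⟨⟨⟨μ⁻¹ • 1, μ • 1, h5, mul_eq_one_comm.1 h5⟩,
    ⟨μ⁻¹ * μ⁻¹, by positivity, grp_sim_scalar _⟩, h4, h3⟩, fun y _ => ?_⟩,
    fun x => Subtype.ext (cact_scalar (inv_ne_zero h1.ne') x.1), ?_⟩
  · change μ⁻¹ • (1 : RM ι) * y = y * μ⁻¹ • (1 : RM ι)
    rw [Matrix.smul_mul, Matrix.mul_smul, one_mul, mul_one]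
  · have h := (h2.mul h2).mul (grp_sim_scalar μ⁻¹)
    have h6 : μ * μ * (μ⁻¹ * μ⁻¹) = 1 := by field_simp
    rw [h6] at h
    exact h

/-- The abstract frame `S` is the frame of the restrictions of all forms and of the germ `V`. -/
structure Con (S : Setup (GD A m) (CX A)) (V : Germ ι E) : Prop where
  F : S.F = resF A (FF ι)
  I : ∀ F, res A F ∈ S.I ↔ F ∈ V.I
  a : S.a.1 = V.c (1, 0)
  Γ : S.Γ = LvD A m 32
  Lv : ∀ n, S.Lv n = LvD A m (32 * m ^ n)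

end M8.CL
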