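import Pool.Agent.Lib.MP_33b3f9_ag.M8.CL.ConeX

/-! The stabiliser of the colour contains a congruence subgroup. -/

set_option autoImplicit false

namespace M8.CL

open M4 M4.CL Matrix Filter Topology

theorem mem_del {G X : Type} [Group G] [MulAction G X] (S : Setup G X) {δ : G}
    (h1 : ∀ k, ∀ F ∈ S.F k, F ∈ S.I → sl δ F ∈ S.I)
    (h2 : ∀ k, ∀ F ∈ S.F k, F ∈ S.I → sl δ⁻¹ F ∈ S.I) : δ ∈ S.Del := fun k F hF =>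
  ⟨fun h => by
    have h3 := h2 k _ (S.sl_mem δ hF.1) h
    rwa [← sl_mul, mul_inv_cancel, sl_one] at h3, h1 k F hF.1⟩

variable {ι : Type} [Fintype ι] [DecidableEq ι] {m : ℕ} {A : Set (RM ι)}
  {E : Type} [NormedAddCommGroup E] [NormedSpace ℂ E]

/-- The vanishing of holomorphic functions passes from the germ `g₀ V` to its image by `g`. -/
def Tf (V : Germ ι E) (g₀ : RM ι) (g : symplecticGroup ι ℤ) : Prop :=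
  ∀ F : (ι → ι → ℂ) → ℂ, DifferentiableOn ℂ F (PosIm ι) →
    (∀ᶠ s in 𝓝 (0 : E), F (act g₀ (V.w s)) = 0) →
    ∀ᶠ s in 𝓝 (0 : E), F (FP.az g (act g₀ (V.w s))) = 0

variable {S : Setup (GD A m) (CX A)} {V : Germ ι E}

theorem Con.step (h : Con S V) (g₀ x : GD A m) {g : symplecticGroup ι ℤ} (hx : mx x.1 = zr g.1)
    (hv : Tf V (mx g₀.1) g) (k : ℕ) (F : CX A → ℂ) (hF : F ∈ S.F k) (hI : F ∈ S.I) :
    sl (g₀⁻¹ * x * g₀) F ∈ S.I := by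
  have h1 := S.sl_mem g₀⁻¹ hF
  rw [h.F] at h1
  obtain ⟨F', h2, h3⟩ := mem_resF.1 h1
  have h4 : sl g₀.1 F' ∈ V.I := by
    rw [← h.I, ← sl_res, h3, ← sl_mul, inv_mul_cancel, sl_one]
    exact hI
  rw [mul_assoc, sl_mul, ← h3, sl_res, h.I]
  exact del_step V g₀.1 x.1 hx hv h2 h4

theorem mx_inv_zr {x : GS ι m} {g : symplecticGroup ι ℤ} (hx : mx x = zr g.1) :
    mx x⁻¹ = zr (g⁻¹).1 := by
  have h1 : zr g.1 * zr (g⁻¹).1 = 1 := by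
    rw [← zr_mul, ← zr_one]
    exact congrArg (fun z : symplecticGroup ι ℤ => zr z.1) (mul_inv_cancel g)
  rw [← mul_one (mx x⁻¹), ← h1, ← hx, ← mul_assoc, mul_eq_one_comm.1 (mx_inv x), one_mul]

theorem Con.conj_mem (h : Con S V) (g₀ x : GD A m) {G : Subgroup (symplecticGroup ι ℤ)}
    (hv : ∀ g ∈ G, Tf V (mx g₀.1) g) {g : symplecticGroup ι ℤ} (hg : g ∈ G)
    (hx : mx x.1 = zr g.1) : g₀⁻¹ * x * g₀ ∈ S.Del := by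
  refine mem_del S (h.step g₀ x hx (hv g hg)) ?_
  rw [show (g₀⁻¹ * x * g₀)⁻¹ = g₀⁻¹ * x⁻¹ * g₀ by group]
  exact h.step g₀ x⁻¹ (mx_inv_zr hx) (hv _ (G.inv_mem hg))

theorem Con.le_del (h : Con S V) (g₀ : GD A m) {G : Subgroup (symplecticGroup ι ℤ)}
    (hv : ∀ g ∈ G, Tf V (mx g₀.1) g) (hG : ∀ g ∈ G, ∃ x : GD A m, mx x.1 = zr g.1) {e : ℕ}
    (he : ∀ (k : ℕ) (γ : symplecticGroup ι ℤ) (β : ZM ι), (∀ y ∈ A, zr γ.1 * y = y * zr γ.1) →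
      γ.1 = 1 + ((32 * m ^ e : ℕ) : ℤ) • β → ∃ g ∈ G, ∃ (η : symplecticGroup ι ℤ) (β' : ZM ι),
        η.1 = 1 + ((32 * m ^ k : ℕ) : ℤ) • β' ∧ γ = η * g) : ∃ n, S.Lv n ≤ S.Del := by
  obtain ⟨n, hn⟩ := S.conj g₀ e
  refine ⟨n, fun δ hδ k F hF => ?_⟩
  have h0 := hn δ hδ
  obtain ⟨γ, hγ⟩ : ∃ γ, γ = g₀ * δ * g₀⁻¹ := ⟨_, rfl⟩
  rw [← hγ, h.Lv] at h0
  obtain ⟨h1, b, h2⟩ := mem_LvD.1 h0
  obtain ⟨-, n', h3⟩ := hF.sl g₀⁻¹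
  obtain ⟨g, hg, η, b', h4, h5⟩ := he n' ⟨_, (sim_zr_iff _).1 (h2 ▸ h1)⟩ b (h2 ▸ γ.2) rfl
  obtain ⟨x, hx⟩ := hG g hg
  have h6 : mx (γ * x⁻¹).1 = zr η.1 := by
    have h7 : mx γ.1 = zr η.1 * mx x.1 := by
      rw [hx, ← zr_mul, h2]
      exact congrArg (fun z : symplecticGroup ι ℤ => zr z.1) h5
    change mx γ.1 * mx x.1⁻¹ = _
    rw [h7, mul_assoc, mx_inv, mul_one]
  have h7 : γ * x⁻¹ ∈ S.Lv n' := by
    rw [h.Lv]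
    exact mem_LvD.2 ⟨h6 ▸ (sim_zr_iff _).2 η.2, b', by rw [h6, h4]⟩
  have h8 : sl δ F = sl (g₀⁻¹ * x * g₀) F := by
    rw [show δ = g₀⁻¹ * (γ * x⁻¹) * (x * g₀) by rw [hγ]; group, sl_mul, sl_mul g₀⁻¹, h3 _ h7,
      ← sl_mul, mul_assoc]
  rw [h8]
  exact h.conj_mem g₀ x hv hg hx k F hF

end M8.CL
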