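import Pool.Agent.Lib.MP_33b3f9_ag.M8.CL.E2s
import Pool.Agent.Lib.MP_33b3f9_ag.M4.CL.E2

/-! The closure of a subgroup with irreducible adjoint action is open. -/

set_option autoImplicit false

namespace M8.CL

open M4 M4.CL Matrix

variable {a b : MZ} {m n : ℕ} {G : Subgroup (symplecticGroup (Fin 8) ℤ)}

theorem avg_mem (hP : PEL a b m n) {S : MZ} (hS : Sᵀ = S) :
    E3.avg a b m n S * J (Fin 8) ℤ ∈ gZ a b := by
  refine ⟨?_, hP.pel.avg_a S, hP.pel.avg_b S⟩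
  have h1 : (E3.avg a b m n S)ᵀ = E3.avg a b m n S := by
    simp only [E3.avg, transpose_add, transpose_smul, transpose_mul, transpose_transpose, hS,
      Matrix.mul_assoc]
  change _ + _ = _
  rw [transpose_mul, h1, J_transpose, Matrix.neg_mul, Matrix.neg_mul, Matrix.mul_assoc,
    neg_add_cancel]

theorem avg_pos (hP : PEL a b m n) {S : MZ} (h0 : ∀ u : ν → ℤ, 0 ≤ u ⬝ᵥ S *ᵥ u) {u : ν → ℤ}
    (hu : u ⬝ᵥ E3.avg a b m n S *ᵥ u = 0) : u ⬝ᵥ S *ᵥ u = 0 := by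
  have e : ∀ x : MZ, u ⬝ᵥ (x * S * xᵀ) *ᵥ u = (xᵀ *ᵥ u) ⬝ᵥ S *ᵥ (xᵀ *ᵥ u) := fun x => by
    rw [← mulVec_mulVec, ← mulVec_mulVec, dotProduct_mulVec u, mulVec_transpose x u]
  simp only [E3.avg, add_mulVec, smul_mulVec, dotProduct_add, dotProduct_smul, e,
    smul_eq_mul] at hu
  have h1 := mul_nonneg (Int.natCast_nonneg n) (h0 (aᵀ *ᵥ u))
  have h2 := mul_nonneg (Int.natCast_nonneg m) (h0 (bᵀ *ᵥ u))
  have h3 := h0 ((a * b)ᵀ *ᵥ u)
  have h4 : (0 : ℤ) < m * n := mul_pos (Int.natCast_pos.2 hP.m0) (Int.natCast_pos.2 hP.n0)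
  have h5 := mul_nonneg h4.le (h0 u)
  exact (mul_eq_zero.1 (by omega)).resolve_left h4.ne'

theorem exists_sing (hP : PEL a b m n) :
    ∃ Y ∈ gZ a b, Y ≠ 0 ∧ ∃ u : ν → ℤ, u ≠ 0 ∧ Y *ᵥ u = 0 := by
  obtain ⟨v, hv⟩ : ∃ v : ν → ℤ, v ≠ 0 := exists_ne 0
  refine ⟨_, avg_mem hP (transpose_vecMulVec v v), fun h => hv ?_, ?_⟩
  · have h1 := congrArg (· * J (Fin 8) ℤ) h
    simp only [Matrix.mul_assoc, J_squared, Matrix.zero_mul, Matrix.mul_neg, Matrix.mul_one,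
      neg_eq_zero] at h1
    have e : ∀ u : ν → ℤ, u ⬝ᵥ vecMulVec v v *ᵥ u = (u ⬝ᵥ v) * (u ⬝ᵥ v) := fun u => by
      rw [vecMulVec_mulVec, dotProduct_comm v, dotProduct_smul, op_smul_eq_mul]
    have h2 := avg_pos hP (fun u => e u ▸ mul_self_nonneg _) (u := v) (by rw [h1]; simp)
    rw [e, mul_self_eq_zero] at h2
    exact dotProduct_self_eq_zero.1 h2
  · obtain ⟨u, hu, h0⟩ := (Submodule.ne_bot_iff
      (LinearMap.ker (Matrix.of (E3.orb a b v) * J (Fin 8) ℤ).mulVecLin)).1 fun h => by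
        have h1 := LinearMap.finrank_le_finrank_of_injective (LinearMap.ker_eq_bot.1 h)
        simp at h1
    refine ⟨u, h0, ?_⟩
    have h1 : ∀ k, E3.orb a b v k ⬝ᵥ J (Fin 8) ℤ *ᵥ u = 0 := fun k => by
      have h2 := congrFun (LinearMap.mem_ker.1 hu) k
      rwa [mulVecLin_apply, ← mulVec_mulVec] at h2
    rw [← mulVec_mulVec, E3.avg_vec, Matrix.sum_mulVec]
    exact Finset.sum_eq_zero fun k _ => by
      rw [smul_mulVec, vecMulVec_mulVec, h1, MulOpposite.op_zero, zero_smul, smul_zero]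

theorem exists_ne_one (hP : PEL a b m n) (hC : ∀ g ∈ G, Com a b g.1) (hG : SpD a b G) {M : ℤ}
    (hM : M ≠ 0) : ∃ g ∈ G, ∃ β : MZ, β ≠ 0 ∧ g.1 = 1 + M • β := by
  by_contra hc
  push Not at hc
  have : NeZero M.natAbs := ⟨Int.natAbs_ne_zero.2 hM⟩
  have : Finite G := Finite.of_injective
    (fun g : G => g.1.1.map (Int.cast : ℤ → ZMod M.natAbs)) fun g g' h => by
      have h1 : ∀ i j, ∃ c, (g.1.1 - g'.1.1) i j = M * c := fun i j =>
        Int.natAbs_dvd.1 ((ZMod.intCast_eq_intCast_iff_dvd_sub _ _ _).1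
          (congrFun (congrFun h i) j).symm)
      choose c hc' using h1
      have h2 : g.1.1 - g'.1.1 = M • Matrix.of c := Matrix.ext hc'
      have h3 : (g'.1⁻¹ * g.1).1 = 1 + M • ((g'.1⁻¹).1 * Matrix.of c) := by
        rw [← Matrix.mul_smul, ← h2, Matrix.mul_sub, ← Submonoid.coe_mul, ← Submonoid.coe_mul,
          inv_mul_cancel, Submonoid.coe_one, add_sub_cancel]
      by_cases h4 : (g'.1⁻¹).1 * Matrix.of c = 0
      · rw [h4, smul_zero, add_zero] at h3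
        exact Subtype.ext (inv_mul_eq_one.1 (Subtype.ext h3)).symm
      · exact absurd h3 (hc _ (G.mul_mem (G.inv_mem g'.2) g.2) _ h4)
  have := Fintype.ofFinite G
  obtain ⟨S, hS⟩ : ∃ S, S = ∑ g : G, g.1.1 * g.1.1ᵀ := ⟨_, rfl⟩
  have h0 : ∀ (u : ν → ℤ) (g : MZ), 0 ≤ u ⬝ᵥ (g * gᵀ) *ᵥ u := fun u g => by
    rw [← mulVec_mulVec, dotProduct_mulVec, ← mulVec_transpose]
    exact Finset.sum_nonneg fun i _ => mul_self_nonneg _
  have h1 : ∀ u : ν → ℤ, u ⬝ᵥ E3.avg a b m n S *ᵥ u = 0 → u = 0 := fun u hu => by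
    have h2 := avg_pos hP (fun u => by
      rw [hS, Matrix.sum_mulVec, dotProduct_sum]
      exact Finset.sum_nonneg fun g _ => h0 u _) hu
    rw [hS, Matrix.sum_mulVec, dotProduct_sum,
      Finset.sum_eq_zero_iff_of_nonneg fun g _ => h0 u _] at h2
    have h3 := h2 1 (Finset.mem_univ _)
    change u ⬝ᵥ ((1 : MZ) * (1 : MZ)ᵀ) *ᵥ u = 0 at h3
    rwa [transpose_one, Matrix.one_mul, one_mulVec, dotProduct_self_eq_zero] at h3
  have hX := avg_mem hP (S := S) (by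
    simp only [hS, transpose_sum, transpose_mul, transpose_transpose])
  have h2 : ∀ g ∈ G, g.1 * (E3.avg a b m n S * J (Fin 8) ℤ) * (g⁻¹).1 =
      E3.avg a b m n S * J (Fin 8) ℤ := fun g hg => by
    have h3 : g.1 * S * g.1ᵀ = S := by
      rw [hS, Finset.mul_sum, Finset.sum_mul]
      refine Fintype.sum_equiv (Equiv.mulLeft (⟨g, hg⟩ : G)) _ _ fun x => ?_
      change _ = (g.1 * x.1.1) * (g.1 * x.1.1)ᵀ
      simp only [transpose_mul, Matrix.mul_assoc]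
    have h4 : ∀ x : MZ, g.1 * x = x * g.1 → g.1 * (x * S * xᵀ) * g.1ᵀ = x * S * xᵀ := fun x hx => by
      conv_rhs => rw [← h3, ← Matrix.mul_assoc, ← Matrix.mul_assoc, ← hx, Matrix.mul_assoc _ g.1ᵀ,
        ← transpose_mul, ← hx, transpose_mul]
      simp only [Matrix.mul_assoc]
    have h5 : g.1 * E3.avg a b m n S * g.1ᵀ = E3.avg a b m n S := by
      simp only [E3.avg, mul_add, add_mul, Matrix.mul_smul, Matrix.smul_mul]
      rw [h3, h4 a (hC g hg).1, h4 b (hC g hg).2, h4 (a * b) (by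
        rw [← Matrix.mul_assoc, (hC g hg).1, Matrix.mul_assoc, (hC g hg).2, Matrix.mul_assoc])]
    rw [SymplecticGroup.coe_inv]
    generalize E3.avg a b m n S = T at h5
    calc g.1 * (T * J (Fin 8) ℤ) * (-J (Fin 8) ℤ * g.1ᵀ * J (Fin 8) ℤ)
        = -(g.1 * T * (J (Fin 8) ℤ * J (Fin 8) ℤ) * g.1ᵀ * J (Fin 8) ℤ) := by
          simp only [Matrix.mul_assoc, Matrix.neg_mul, Matrix.mul_neg]
      _ = _ := by rw [J_squared, Matrix.mul_neg, Matrix.mul_one, Matrix.neg_mul, Matrix.neg_mul,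
          neg_neg, h5]
  obtain ⟨Y, hY, hY0, u, hu, hYu⟩ := exists_sing hP
  have h3 : (E3.avg a b m n S * J (Fin 8) ℤ) *ᵥ u ≠ 0 := fun h => hu (by
    have h4 := congrArg (J (Fin 8) ℤ *ᵥ ·) (h1 (J (Fin 8) ℤ *ᵥ u) (by
      rw [mulVec_mulVec, h, dotProduct_zero]))
    simpa only [mulVec_mulVec, J_squared, neg_mulVec, one_mulVec, mulVec_zero, neg_eq_zero]
      using h4)
  generalize E3.avg a b m n S * J (Fin 8) ℤ = X at hX h2 h3
  obtain ⟨i, j, hij⟩ : ∃ i j, X i j ≠ 0 := by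
    by_contra h
    push Not at h
    exact h3 (by rw [show X = 0 from Matrix.ext h, zero_mulVec])
  obtain ⟨c, hc0, H⟩ := hG
  obtain ⟨k, hk⟩ := AddSubgroup.mem_zmultiples_iff.1 (H (AddSubgroup.zmultiples X)
    (fun g hg X hX => by
      obtain ⟨k, rfl⟩ := AddSubgroup.mem_zmultiples_iff.1 hX
      rw [Matrix.mul_smul, Matrix.smul_mul, h2 g hg]
      exact hX) _ (AddSubgroup.mem_zmultiples _) hX i j Y hY)
  have h6 := congrArg (· *ᵥ u) hk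
  simp only [smul_mulVec, hYu, smul_zero] at h6
  rw [(smul_eq_zero.1 h6).resolve_right h3, zero_smul, eq_comm, smul_eq_zero] at hk
  exact hk.elim (mul_ne_zero hc0 hij) hY0

theorem exists_tower (hP : PEL a b m n) (hC : ∀ g ∈ G, Com a b g.1) (hG : SpD a b G) {p : ℕ}
    (hp : p ≠ 0) : ∃ q j : ℕ, q ∣ p ^ j ∧ ∀ d : ℕ, ∃ g ∈ G, ∃ X : MZ,
      g.1 = 1 + ((32 * (q * p ^ d) : ℕ) : ℤ) • X ∧
        ∀ l : ℕ, l.Prime → l ∣ p → ∃ i k, ¬ (l : ℤ) ∣ X i k := by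
  obtain ⟨h, hh, β, hb, e⟩ := exists_ne_one hP hC hG (M := 32 * p ^ 2) (by positivity)
  obtain ⟨q, j, X, h1, rfl, h2⟩ := e2a_content p β hb
  refine ⟨p ^ 2 * q, 2 + j, by rw [pow_add]; exact Nat.mul_dvd_mul_left _ h1, fun d => ?_⟩
  induction d with
  | zero => exact ⟨h, hh, X, by rw [e, smul_smul]; congr 2; push_cast; ring, h2⟩
  | succ d ih =>
    obtain ⟨g, hg, Y, h3, h4⟩ := ih
    obtain ⟨Z, hZ⟩ := e2a_pow (((32 * (p ^ 2 * q * p ^ d) : ℕ) : ℤ)) Y p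
    refine ⟨g ^ p, G.pow_mem hg p, Y + ((p : ℤ) * (32 * q * p ^ d)) • Z, ?_, fun l hl hlm => ?_⟩
    · rw [SubmonoidClass.coe_pow, h3, hZ, smul_add, smul_smul, add_assoc]
      congr 3 <;> push_cast <;> ring
    · obtain ⟨i, k, hab⟩ := h4 l hl hlm
      refine ⟨i, k, fun h => hab ((dvd_add_left ?_).1 h)⟩
      exact ((Int.natCast_dvd_natCast.2 hlm).mul_right _).mul_right _

/-- The first term of a deep element lies in the Lie algebra, up to a deeper term. -/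
theorem exists_lie (hP : PEL a b m n) {γ Y : MZ} (hγ : γ ∈ symplecticGroup (Fin 8) ℤ)
    (hc : Com a b γ) {t : ℤ} (ht : t ≠ 0) (h : γ = 1 + (2 * t) • Y) :
    ∃ W ∈ gZ a b, ∃ Z : MZ, Y = W + t • Z := by
  have ht2 : 2 * t ≠ 0 := mul_ne_zero two_ne_zero ht
  have h1 := SymplecticGroup.mem_iff.1 hγ
  have h2 : (2 * t) • (Y * J (Fin 8) ℤ + J (Fin 8) ℤ * Yᵀ + (2 * t) • (Y * J (Fin 8) ℤ * Yᵀ)) =
      0 := by
    rw [h, transpose_add, transpose_one, transpose_smul] at h1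
    simp only [add_mul, mul_add, one_mul, mul_one, smul_mul_assoc, mul_smul_comm] at h1
    rw [← sub_eq_zero] at h1
    rw [← h1]
    module
  have h3 := (smul_eq_zero.1 h2).resolve_left ht2
  have h4 : ∀ x : MZ, γ * x = x * γ → Y * x = x * Y := fun x hx => by
    rw [h, add_mul, mul_add, one_mul, mul_one, smul_mul_assoc, mul_smul_comm, add_right_inj] at hx
    exact smul_right_injective _ ht2 hx
  have h5 : ∀ (x : MZ) (ε : ℤ), xᵀ * J (Fin 8) ℤ = ε • (J (Fin 8) ℤ * x) → ε * ε = 1 →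
      Y * x = x * Y → (Y - t • (Y * J (Fin 8) ℤ * Yᵀ * J (Fin 8) ℤ)) * x =
        x * (Y - t • (Y * J (Fin 8) ℤ * Yᵀ * J (Fin 8) ℤ)) := fun x ε e1 e2 e3 => by
    have e4 : J (Fin 8) ℤ * x = ε • (xᵀ * J (Fin 8) ℤ) := by rw [e1, smul_smul, e2, one_smul]
    have e5 : ε • (J (Fin 8) ℤ * xᵀ) = x * J (Fin 8) ℤ := by
      have e6 := congrArg (fun T => J (Fin 8) ℤ * T * J (Fin 8) ℤ) e4
      simp only [← Matrix.mul_assoc, J_squared, Matrix.mul_smul, Matrix.smul_mul] at e6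
      simpa only [Matrix.mul_assoc, J_squared, Matrix.neg_mul, Matrix.mul_neg, Matrix.one_mul,
        Matrix.mul_one, smul_neg, neg_inj] using e6.symm
    have e6 : Yᵀ * xᵀ = xᵀ * Yᵀ := by rw [← transpose_mul, ← e3, transpose_mul]
    rw [sub_mul, mul_sub, e3, smul_mul_assoc, mul_smul_comm]
    congr 2
    calc _ = ε • (Y * J (Fin 8) ℤ * (Yᵀ * xᵀ) * J (Fin 8) ℤ) := by
          rw [Matrix.mul_assoc _ _ x, e4]
          simp only [Matrix.mul_assoc, mul_smul_comm]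
      _ = Y * (ε • (J (Fin 8) ℤ * xᵀ)) * Yᵀ * J (Fin 8) ℤ := by
          simp only [e6, Matrix.mul_assoc, mul_smul_comm, smul_mul_assoc]
      _ = _ := by
          rw [e5, ← Matrix.mul_assoc, e3]
          simp only [Matrix.mul_assoc]
  refine ⟨Y - t • (Y * J (Fin 8) ℤ * Yᵀ * J (Fin 8) ℤ), ⟨?_, h5 a (-1) (by rw [hP.aJ, neg_one_smul])
    (by norm_num) (h4 a hc.1), h5 b 1 (by rw [hP.bJ, one_smul]) (one_mul _) (h4 b hc.2)⟩, _,
    (sub_add_cancel _ _).symm⟩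
  have h6 := congrArg (fun T => J (Fin 8) ℤ * T * J (Fin 8) ℤ) h3
  have h7 : ∀ T : MZ, J (Fin 8) ℤ * (J (Fin 8) ℤ * T) = -T := fun T => by
    rw [← Matrix.mul_assoc, J_squared, Matrix.neg_mul, Matrix.one_mul]
  change _ + _ = _
  simp only [transpose_sub, transpose_smul, transpose_mul, transpose_transpose, J_transpose,
    mul_add, add_mul, sub_mul, mul_sub, smul_mul_assoc, mul_smul_comm, Matrix.mul_assoc, h7,
    J_squared, mul_neg, neg_mul, mul_one, neg_neg, mul_zero, zero_mul] at h6 ⊢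
  linear_combination (norm := module) -h6

theorem exists_layer (hP : PEL a b m n) (hC : ∀ g ∈ G, Com a b g.1) (hG : SpD a b G) {p : ℕ}
    (hp : p ≠ 0) : ∃ k : ℕ, ∀ q j : ℕ, q ∣ p ^ j → ∀ g ∈ G, ∀ X : MZ,
      g.1 = 1 + ((32 * q : ℕ) : ℤ) • X → (∀ l : ℕ, l.Prime → l ∣ p → ∃ i k, ¬ (l : ℤ) ∣ X i k) →
      ∀ Y ∈ gZ a b, ∃ g' ∈ G, ∃ Z : MZ,
        g'.1 = 1 + ((32 * q * p ^ k : ℕ) : ℤ) • Y + ((32 * q ^ 2 : ℕ) : ℤ) • Z := by
  obtain ⟨c, hc0, hc⟩ := hG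
  refine ⟨c.natAbs, fun q j hq g hg X hX hl Y hY => ?_⟩
  have hq0 : q ≠ 0 := ne_zero_of_dvd_ne_zero (pow_ne_zero j hp) hq
  obtain ⟨W, hW, Z, rfl⟩ := exists_lie hP g.2 (hC g hg) (t := 16 * q) (Y := X) (by positivity) (by
    rw [hX]
    push_cast
    rw [← mul_assoc (2 : ℤ)]
    norm_num)
  have hWL : W ∈ e2bL G q := ⟨g, hg, (16 : ℤ) • Z, by
    rw [hX]
    push_cast
    module⟩
  obtain ⟨g', hg', Z', h4⟩ := e2b_ideal (e2bL G q) Y hq hc0 (e2b_q _ _) fun l hlp hlq => by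
    obtain ⟨i, k, hik⟩ := hl l hlp (hlp.dvd_of_dvd_pow (hlq.trans hq))
    exact ⟨W i k, fun h => hik (dvd_add h
      (((Int.natCast_dvd_natCast.2 hlq).mul_left _).mul_right _)),
      hc _ (e2b_conj q) W hWL hW i k Y hY⟩
  refine ⟨g', hg', Z', ?_⟩
  rw [h4, smul_smul]
  push_cast
  rfl

theorem com_mul {g h : MZ} (hg : Com a b g) (hh : Com a b h) : Com a b (g * h) :=
  ⟨by rw [mul_assoc, hh.1, ← mul_assoc, hg.1, mul_assoc],
    by rw [mul_assoc, hh.2, ← mul_assoc, hg.2, mul_assoc]⟩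

theorem exists_open (hP : PEL a b m n) {G : Subgroup (symplecticGroup (Fin 8) ℤ)}
    (hG : IRR a b G) {q : ℕ} (hq : Odd q) : ∃ e : ℕ, ∀ (k : ℕ)
    (γ : symplecticGroup (Fin 8) ℤ) (β : MZ), Com a b γ.1 →
    γ.1 = 1 + ((32 * q ^ e : ℕ) : ℤ) • β → ∃ g ∈ G, ∃ (h : symplecticGroup (Fin 8) ℤ)
      (β' : MZ), h.1 = 1 + ((32 * q ^ k : ℕ) : ℤ) • β' ∧ γ = h * g := by
  have hm0 : q ≠ 0 := hq.pos.ne'
  obtain ⟨r, j, hr, htow⟩ := exists_tower hP hG.1 hG.spD hm0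
  obtain ⟨k, hk⟩ := exists_layer hP hG.1 hG.spD hm0
  have hr0 : r ≠ 0 := ne_zero_of_dvd_ne_zero (pow_ne_zero j hm0) hr
  have key : ∀ (d : ℕ) (γ : symplecticGroup (Fin 8) ℤ) (β : MZ), Com a b γ.1 →
      γ.1 = 1 + ((32 * (r * q ^ (k + 1) * q ^ k) : ℕ) : ℤ) • β → ∃ g ∈ G,
        ∃ (h : symplecticGroup (Fin 8) ℤ) (β' : MZ), Com a b h.1 ∧
          h.1 = 1 + ((32 * (r * q ^ (k + 1 + d) * q ^ k) : ℕ) : ℤ) • β' ∧ γ = h * g := by
    intro d γ β hc hb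
    induction d with
    | zero => exact ⟨1, G.one_mem, γ, β, hc, hb, (mul_one γ).symm⟩
    | succ d ih =>
      obtain ⟨g, hg, h, Y, hh, hY, rfl⟩ := ih
      obtain ⟨g0, hg0, X, hX, hX'⟩ := htow (k + 1 + d)
      have ha : ((16 * (r * q ^ (k + 1 + d) * q ^ k) : ℕ) : ℤ) ≠ 0 := by
        rw [Int.natCast_ne_zero]
        positivity
      obtain ⟨W, hW, Z, rfl⟩ := exists_lie hP (Y := Y) h.2 hh ha (by
        rw [hY]
        push_cast
        rw [← mul_assoc (2 : ℤ)]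
        norm_num)
      obtain ⟨g1, hg1, Z', hZ⟩ := hk (r * q ^ (k + 1 + d)) (j + (k + 1 + d))
        (by rw [pow_add q j]; exact mul_dvd_mul_right hr _) g0 hg0 X hX hX' W hW
      have h1 : h.1 = g1.1 + ((32 * (r * q ^ (k + 1 + d)) ^ 2 : ℕ) : ℤ) •
          ((16 * (q : ℤ) ^ k * (q : ℤ) ^ k) • Z - Z') := by
        rw [hY, hZ]
        push_cast
        module
      obtain ⟨b', hb'⟩ := e2_dvd (s := r * q ^ (k + 1 + (d + 1)) * q ^ k)
        ⟨r * q ^ d, by ring⟩ (e2_step h1)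
      exact ⟨g1 * g, G.mul_mem hg1 hg, h * g1⁻¹, b', com_mul hh (hG.1 _ (G.inv_mem hg1)), hb',
        by group⟩
  refine ⟨j + (k + 1) + k, fun d γ β hc hb => ?_⟩
  obtain ⟨b1, hb1⟩ := e2_dvd (s := r * q ^ (k + 1) * q ^ k) (by
    rw [pow_add q _ k, pow_add q j]
    exact mul_dvd_mul_right (mul_dvd_mul_right hr _) _) hb
  obtain ⟨g, hg, h, b', -, hb', rfl⟩ := key d γ b1 hc hb1
  obtain ⟨b2, hb2⟩ := e2_dvd (s := q ^ d) ⟨r * q ^ (k + 1) * q ^ k, by ring⟩ hb'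
  exact ⟨g, hg, h, b2, hb2, rfl⟩

end M8.CL
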