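import Pool.Agent.Lib.MP_33b3f9_ag.M8.CL.E3

/-! The integral form of the irreducibility of the adjoint action. -/

set_option autoImplicit false

namespace M8.CL

open M4 Matrix

variable {a b : MZ} {G : Subgroup (symplecticGroup (Fin 8) ℤ)}

theorem burnside {k B : Type} [Field k] [IsAlgClosed k] [Ring B] [Algebra k B] (M : Type)
    [AddCommGroup M] [Module k M] [Module B M] [IsScalarTower k B M]
    [FiniteDimensional k M] [IsSimpleModule B M] (f : M →ₗ[k] M) :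
    ∃ b : B, ∀ m, b • m = f m := by
  let g : Module.End (Module.End B M) M :=
    { toFun := f
      map_add' := f.map_add
      map_smul' := fun e m => by
        obtain ⟨c, rfl⟩ := (IsSimpleModule.algebraMap_end_bijective_of_isAlgClosed k).2 e
        exact f.map_smul c m }
  obtain ⟨s, hs⟩ := Module.Finite.fg_top (R := k) (M := M)
  obtain ⟨b, hb⟩ := jacobson_density g s
  refine ⟨b, fun m => ?_⟩
  induction hs.ge (trivial : m ∈ ⊤) using Submodule.span_induction with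
  | mem m hm => exact (hb m hm).symm
  | zero => rw [smul_zero, map_zero]
  | add x y _ _ hx hy => rw [smul_add, map_add, hx, hy]
  | smul c x _ hx => rw [smul_comm, hx, map_smul]

theorem span_of_irr {k V Γ : Type} [Field k] [IsAlgClosed k] [AddCommGroup V] [Module k V]
    [FiniteDimensional k V] [Nontrivial V] [Monoid Γ] (ρ : Γ →* Module.End k V)
    (h : ∀ W : Submodule k V, (∀ g, ∀ x ∈ W, ρ g x ∈ W) → W = ⊥ ∨ W = ⊤) (f : Module.End k V) :
    f ∈ Submodule.span k (Set.range ρ) := by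
  have : IsSimpleModule (Algebra.adjoin k (Set.range ρ)) V := by
    refine (isSimpleModule_iff _ _).2 ⟨fun W => ?_⟩
    rcases h (W.restrictScalars k) (fun g x hx =>
      W.smul_mem ⟨_, Algebra.subset_adjoin ⟨g, rfl⟩⟩ hx) with h | h
    · exact Or.inl (eq_bot_iff.2 fun x hx => h.le hx)
    · exact Or.inr (eq_top_iff.2 fun x _ => h.ge trivial)
  obtain ⟨⟨T, h0⟩, hT⟩ := burnside (k := k) (B := Algebra.adjoin k (Set.range ρ)) V f
  obtain rfl : T = f := LinearMap.ext hT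
  have h1 : T ∈ Subalgebra.toSubmodule (Algebra.adjoin k (Set.range ρ)) := h0
  rwa [Algebra.adjoin_eq_span, ← MonoidHom.coe_mrange, Submonoid.closure_eq] at h1

theorem inSp_conj {ι R : Type} [Fintype ι] [DecidableEq ι] [CommRing R]
    {g g' X : Matrix (ι ⊕ ι) (ι ⊕ ι) R} (hg : gᵀ * J ι R * g = J ι R) (e : g * g' = 1)
    (hX : FP.InSp X) : FP.InSp (g * X * g') := by
  have h1 : gᵀ * J ι R = J ι R * g' := by
    conv_rhs => rw [← hg, Matrix.mul_assoc, e, Matrix.mul_one]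
  have h2 : J ι R * g = g'ᵀ * J ι R := by
    conv_rhs => rw [← hg, ← Matrix.mul_assoc, ← Matrix.mul_assoc, ← transpose_mul, e, transpose_one,
      Matrix.one_mul]
  have h3 := congrArg (fun Y => g'ᵀ * Y * g') (show Xᵀ * J ι R + J ι R * X = 0 from hX)
  change _ + _ = _
  rw [transpose_mul, transpose_mul, Matrix.mul_assoc, Matrix.mul_assoc, h1, ← Matrix.mul_assoc (J ι R),
    ← Matrix.mul_assoc (J ι R), h2]
  simpa only [Matrix.mul_add, Matrix.add_mul, Matrix.mul_assoc, Matrix.mul_zero, Matrix.zero_mul]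
    using h3

theorem comm_conj {A : Type} [Ring A] {g g' X x : A} (e : g * g' = 1) (e' : g' * g = 1)
    (hg : g * x = x * g) (hX : X * x = x * X) : g * X * g' * x = x * (g * X * g') := by
  have h1 : g' * x = x * g' := by
    rw [← mul_one (g' * x), ← e, ← mul_assoc, mul_assoc g', ← hg, ← mul_assoc, e', one_mul]
  rw [mul_assoc, h1, ← mul_assoc, mul_assoc g, hX, ← mul_assoc, hg]
  simp only [mul_assoc]

/-- The integral points of the Lie algebra of the centraliser. -/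
def gZ (a b : MZ) : Submodule ℤ MZ where
  carrier := {X | FP.InSp X ∧ Com a b X}
  zero_mem' := ⟨by simp [FP.InSp], by simp [Com]⟩
  add_mem' := fun {X Y} hX hY => ⟨by
    change (X + Y)ᵀ * _ + _ * (X + Y) = 0
    rw [transpose_add, Matrix.add_mul, Matrix.mul_add, add_add_add_comm, hX.1, hY.1, add_zero], by
    rw [add_mul, mul_add, hX.2.1, hY.2.1], by rw [add_mul, mul_add, hX.2.2, hY.2.2]⟩
  smul_mem' := fun c X hX => ⟨by
    change (c • X)ᵀ * _ + _ * (c • X) = 0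
    rw [transpose_smul, Matrix.smul_mul, Matrix.mul_smul, ← smul_add, hX.1, smul_zero], by
    rw [Matrix.smul_mul, Matrix.mul_smul, hX.2.1], by rw [Matrix.smul_mul, Matrix.mul_smul, hX.2.2]⟩

theorem zM_mul (R : Type) [CommRing R] (g h : MZ) : zM R (g * h) = zM R g * zM R h :=
  Matrix.map_mul (f := Int.castRingHom R)

theorem inG_of_gZ {X : MZ} (h : X ∈ gZ a b) : InG a b (zM ℂ X) := by
  refine ⟨?_, ?_, ?_⟩
  · have h1 := congrArg (fun M : MZ => (Int.castRingHom ℂ).mapMatrix M) h.1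
    simp only [map_mul, map_add, map_zero, RingHom.mapMatrix_apply, map_J] at h1
    exact h1
  · change _ * _ = _ * _
    rw [← zM_mul, ← zM_mul, h.2.1]
  · change _ * _ = _ * _
    rw [← zM_mul, ← zM_mul, h.2.2]

theorem cm_inv (g : symplecticGroup (Fin 8) ℤ) : FP.cm ℂ g * FP.cm ℂ g⁻¹ = 1 := by
  have h1 : g.1 * (g⁻¹).1 = 1 := congrArg Subtype.val (mul_inv_cancel g)
  change zM ℂ _ * zM ℂ _ = 1
  rw [← zM_mul, h1]
  exact Matrix.map_one _ Int.cast_zero Int.cast_one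

theorem inG_conj {g : symplecticGroup (Fin 8) ℤ} (hg : Com a b g.1) {X : Matrix ν ν ℂ}
    (hX : InG a b X) : InG a b (FP.cm ℂ g * X * FP.cm ℂ g⁻¹) := by
  have e := cm_inv g
  refine ⟨inSp_conj ?_ e hX.1, (comm_conj e (mul_eq_one_comm.1 e) ?_ hX.2.1.symm).symm,
    (comm_conj e (mul_eq_one_comm.1 e) ?_ hX.2.2.symm).symm⟩
  · have h1 := congrArg (fun M : MZ => (Int.castRingHom ℂ).mapMatrix M)
      (SymplecticGroup.mem_iff'.1 g.2)
    simp only [map_mul, RingHom.mapMatrix_apply, map_J] at h1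
    exact h1
  · change zM ℂ _ * _ = _ * zM ℂ _
    rw [← zM_mul, ← zM_mul, hg.1]
  · change zM ℂ _ * _ = _ * zM ℂ _
    rw [← zM_mul, ← zM_mul, hg.2]

/-- The adjoint action. -/
noncomputable def Ad (hG : ∀ g ∈ G, Com a b g.1) : G →* Module.End ℂ (E3.gC {zr a, zr b}) where
  toFun g := (LinearMap.mulLeftRight ℂ (FP.cm ℂ g.1, FP.cm ℂ g.1⁻¹)).restrict fun _ hX =>
    mem_gC.2 (inG_conj (hG _ g.2) (mem_gC.1 hX))
  map_one' := by
    ext X : 2
    have h1 : FP.cm ℂ (1 : symplecticGroup (Fin 8) ℤ) = 1 :=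
      Matrix.map_one _ Int.cast_zero Int.cast_one
    change FP.cm ℂ 1 * X.1 * FP.cm ℂ 1⁻¹ = X.1
    rw [inv_one, h1, one_mul, mul_one]
  map_mul' g h := by
    ext X : 2
    have h1 : ∀ g h : symplecticGroup (Fin 8) ℤ, FP.cm ℂ (g * h) = FP.cm ℂ g * FP.cm ℂ h :=
      fun g h => zM_mul ℂ g.1 h.1
    change FP.cm ℂ (g.1 * h.1) * X.1 * FP.cm ℂ (g.1 * h.1)⁻¹ =
      FP.cm ℂ g.1 * (FP.cm ℂ h.1 * X.1 * FP.cm ℂ h.1⁻¹) * FP.cm ℂ g.1⁻¹
    rw [_root_.mul_inv_rev, h1, h1]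
    simp only [mul_assoc]

theorem Ad_span (hG : IRR a b G) [Nontrivial (E3.gC {zr a, zr b})]
    (f : Module.End ℂ (E3.gC {zr a, zr b})) : f ∈ Submodule.span ℂ (Set.range (Ad hG.1)) := by
  refine span_of_irr _ (fun W hW => ?_) f
  rcases hG.2 (W.map (Submodule.subtype _)) (by
    rintro _ ⟨X, -, rfl⟩
    exact X.2) (by
    rintro _ ⟨g, hg, rfl⟩ g' e _ ⟨X, hX, rfl⟩
    have e1 : E3.cx (zr g.1) * E3.cx g' = 1 := by
      rw [← E3.cx_mul, e, E3.cx_one]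
    have e2 : E3.cx g' = FP.cm ℂ g⁻¹ := by
      rw [cx_zr] at e1
      exact left_inv_eq_right_inv (mul_eq_one_comm.1 e1) (cm_inv g)
    rw [e2, cx_zr]
    exact ⟨_, hW ⟨g, hg⟩ X hX, rfl⟩) with h | h
  · refine Or.inl (eq_bot_iff.2 fun X hX => Subtype.ext ?_)
    exact h.le ⟨X, hX, rfl⟩
  · refine Or.inr (eq_top_iff.2 fun X _ => ?_)
    obtain ⟨Y, hY, e⟩ := h.ge X.2
    exact Subtype.ext e ▸ hY

theorem lin_int (φ : ℂ →ₗ[ℚ] ℚ) (z : ℤ) : φ z = z * φ 1 := by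
  rw [← zsmul_eq_mul, ← map_zsmul, zsmul_eq_mul, mul_one]

/-- A stable lattice that contains `X` contains `c X i j` times the integral Lie algebra. -/
def SpD (a b : MZ) (G : Subgroup (symplecticGroup (Fin 8) ℤ)) : Prop :=
  ∃ c : ℤ, c ≠ 0 ∧ ∀ L : AddSubgroup MZ, (∀ g ∈ G, ∀ X ∈ L, g.1 * X * (g⁻¹).1 ∈ L) →
    ∀ X ∈ L, X ∈ gZ a b → ∀ i j, ∀ Y ∈ gZ a b, (c * X i j) • Y ∈ L

theorem span_rat (hG : ∀ g ∈ G, Com a b g.1) {f : Module.End ℂ (E3.gC {zr a, zr b})}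
    (hf : f ∈ Submodule.span ℂ (Set.range (Ad hG))) (φ : ℂ →ₗ[ℚ] ℚ) : ∃ c : ℤ, c ≠ 0 ∧
      ∀ L : AddSubgroup MZ, (∀ g ∈ G, ∀ X ∈ L, g.1 * X * (g⁻¹).1 ∈ L) → ∀ X ∈ L,
        ∀ hX : X ∈ gZ a b, ∃ W ∈ L, ∀ i j,
          (W i j : ℚ) = c * φ ((f ⟨zM ℂ X, mem_gC.2 (inG_of_gZ hX)⟩).1 i j) := by
  induction hf using Submodule.span_induction generalizing φ with
  | mem f hf =>
    obtain ⟨g, rfl⟩ := hf
    refine ⟨(φ 1).den, Int.natCast_ne_zero.2 (φ 1).den_nz, fun L hL X hX _ =>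
      ⟨_, L.zsmul_mem (hL _ g.2 X hX) (φ 1).num, fun i j => ?_⟩⟩
    change _ = _ * φ ((zM ℂ _ * zM ℂ X * zM ℂ _) i j)
    rw [← zM_mul, ← zM_mul]
    change (((φ 1).num * (g.1.1 * X * (g.1⁻¹).1) i j : ℤ) : ℚ) =
      _ * φ ((g.1.1 * X * (g.1⁻¹).1) i j : ℤ)
    rw [lin_int, Int.cast_mul, mul_left_comm, Int.cast_natCast, Rat.den_mul_eq_num, mul_comm]
  | zero => exact ⟨1, one_ne_zero, fun L _ X _ _ => ⟨0, L.zero_mem, fun i j => by simp⟩⟩
  | add f g _ _ hf hg =>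
    obtain ⟨c, hc, h1⟩ := hf φ
    obtain ⟨d, hd, h2⟩ := hg φ
    refine ⟨c * d, mul_ne_zero hc hd, fun L hL X hX hX' => ?_⟩
    obtain ⟨W, hW, h3⟩ := h1 L hL X hX hX'
    obtain ⟨W', hW', h4⟩ := h2 L hL X hX hX'
    refine ⟨_, L.add_mem (L.zsmul_mem hW d) (L.zsmul_mem hW' c), fun i j => ?_⟩
    rw [LinearMap.add_apply, Submodule.coe_add, Matrix.add_apply, Matrix.add_apply, map_add,
      Matrix.smul_apply, Matrix.smul_apply]
    push_cast [smul_eq_mul, h3, h4]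
    ring
  | smul z f _ hf => exact hf (φ ∘ₗ LinearMap.mulLeft ℚ z)

theorem _root_.M8.IRR.spD (hG : IRR a b G) : SpD a b G := by
  obtain ⟨φ, hφ⟩ : ∃ φ : ℂ →ₗ[ℚ] ℚ, φ 1 = 1 := Module.Projective.exists_dual_eq_one ℚ one_ne_zero
  have key : ∀ (p : ν × ν) (Y : MZ), Y ∈ gZ a b → ∃ c : ℤ, c ≠ 0 ∧ ∀ L : AddSubgroup MZ,
      (∀ g ∈ G, ∀ X ∈ L, g.1 * X * (g⁻¹).1 ∈ L) → ∀ X ∈ L, X ∈ gZ a b →
        (c * X p.1 p.2) • Y ∈ L := fun p Y hY => by
    by_cases h0 : Y = 0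
    · exact ⟨1, one_ne_zero, fun L _ X _ _ => by rw [h0, smul_zero]; exact L.zero_mem⟩
    have : Nontrivial (E3.gC {zr a, zr b}) := ⟨⟨zM ℂ Y, mem_gC.2 (inG_of_gZ hY)⟩, 0, fun h =>
      h0 (Matrix.ext fun i j => Int.cast_eq_zero.1 (congrFun (congrFun (congrArg Subtype.val h) i) j))⟩
    obtain ⟨c, hc, h⟩ := span_rat hG.1 (Ad_span hG (LinearMap.smulRight
      (Matrix.entryLinearMap ℂ ℂ p.1 p.2 ∘ₗ Submodule.subtype _)
      ⟨zM ℂ Y, mem_gC.2 (inG_of_gZ hY)⟩)) φ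
    refine ⟨c, hc, fun L hL X hX hX' => ?_⟩
    obtain ⟨W, hW, h1⟩ := h L hL X hX hX'
    obtain rfl : W = (c * X p.1 p.2) • Y := Matrix.ext fun i j => by
      have h2 := h1 i j
      change _ = _ * φ ((X p.1 p.2 : ℂ) * (Y i j : ℂ)) at h2
      rw [← Int.cast_mul, lin_int, hφ, mul_one, ← Int.cast_mul, Int.cast_inj, ← mul_assoc] at h2
      exact h2
    exact hW
  choose! c hc0 hc using key
  obtain ⟨s, hs⟩ := IsNoetherian.noetherian (gZ a b)
  have hs' : ∀ Y ∈ s, Y ∈ gZ a b := fun Y hY => hs ▸ Submodule.subset_span hY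
  refine ⟨∏ p : ν × ν, ∏ Y ∈ s, c p Y, Finset.prod_ne_zero_iff.2 fun p _ =>
    Finset.prod_ne_zero_iff.2 fun Y hY => hc0 p Y (hs' Y hY), fun L hL X hX hX' i j Y hY => ?_⟩
  rw [← hs] at hY
  induction hY using Submodule.span_induction with
  | mem Y hY =>
    obtain ⟨u, hu⟩ := (Finset.dvd_prod_of_mem (c (i, j)) hY).trans
      (Finset.dvd_prod_of_mem (fun p => ∏ Y ∈ s, c p Y) (Finset.mem_univ (i, j)))
    rw [hu, mul_right_comm, mul_comm, mul_smul]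
    exact L.zsmul_mem (hc (i, j) Y (hs' Y hY) L hL X hX hX') u
  | zero => rw [smul_zero]; exact L.zero_mem
  | add Y Z _ _ h1 h2 => rw [smul_add]; exact L.add_mem h1 h2
  | smul z Y _ h => rw [smul_comm]; exact L.zsmul_mem h z

end M8.CL
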