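import Pool.Agent.Lib.MP_33b3f9_ag.M8.GDefs
import Pool.Agent.Lib.MP_33b3f9_ag.M8.E3.Nd

/-! A function that vanishes on an orbit of a group with unbounded denominators. -/

set_option autoImplicit false

namespace M8

open M4 Matrix

/-- The Lie algebra of the centraliser of `a` and `b`. -/
def InG (a b : MZ) (X : Matrix ν ν ℂ) : Prop :=
  FP.InSp X ∧ Commute (zM ℂ a) X ∧ Commute (zM ℂ b) X

variable {a b : MZ} {m n : ℕ}

theorem PEL.pel (h : PEL a b m n) : E3.Pel a b m n :=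
  ⟨h.m0, h.n0, h.aa, h.bb, h.ab, h.aJ, h.bJ⟩

theorem CL.sim_of_int {g : MZ} {k : ℕ} (h : gᵀ * J (Fin 8) ℤ * g = (k : ℤ) • J (Fin 8) ℤ) :
    Sim (zr g) k := by
  have h1 := congrArg (fun M : MZ => (Int.castRingHom ℝ).mapMatrix M) h
  simp only [map_mul, map_zsmul, RingHom.mapMatrix_apply, map_J] at h1
  rw [sim_iff, ← Int.cast_natCast (R := ℝ) k, Int.cast_smul_eq_zsmul]
  exact h1

theorem PEL.cst_comm (h : PEL a b m n) {τ : Mat} (hτ : τ ∈ FX a b) :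
    cst τ * zr a = zr a * cst τ ∧ cst τ * zr b = zr b * cst τ := by
  have h1 : Sim (zr a) m := CL.sim_of_int (by
    rw [h.aJ, Matrix.neg_mul, Matrix.mul_assoc, h.aa, Matrix.mul_neg, neg_neg, Matrix.mul_smul,
      Matrix.mul_one])
  have h2 : Sim (zr b) n := CL.sim_of_int (by
    rw [h.bJ, Matrix.mul_assoc, h.bb, Matrix.mul_smul, Matrix.mul_one])
  have h3 := cst_act h1 (Nat.cast_pos.2 h.m0) hτ.1
  have h4 := cst_act h2 (Nat.cast_pos.2 h.n0) hτ.1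
  rw [hτ.2.1] at h3
  rw [hτ.2.2] at h4
  exact ⟨h3, h4⟩

theorem CL.cx_zr (g : MZ) : E3.cx (zr g) = zM ℂ g := by
  ext i j
  simp [E3.cx, zr]

theorem CL.mem_gC {X : Matrix ν ν ℂ} : X ∈ E3.gC {zr a, zr b} ↔ InG a b X := by
  constructor
  · rintro ⟨h1, h2⟩
    exact ⟨h1, by rw [← cx_zr]; exact (h2 _ (Or.inl rfl)).symm,
      by rw [← cx_zr]; exact (h2 _ (Or.inr rfl)).symm⟩
  · rintro ⟨h1, h2, h3⟩
    refine ⟨h1, ?_⟩
    rintro x (rfl | rfl)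
    · rw [cx_zr]; exact h2.symm
    · rw [cx_zr]; exact h3.symm

theorem CL.zero_of_unbounded (hP : PEL a b m n) (_c : Ch a b) (H : Submonoid (Matrix ν ν ℝ))
    {q N : ℕ} (_hq : q ≠ 0) (hN : N ≠ 0)
    (hH : ∀ h ∈ H, Sim h 1 ∧ Commute (zr a) h ∧ Commute (zr b) h ∧
      (∃ j : ℕ, CL.IntM ((q : ℝ) ^ j • h)) ∧ ∃ h' ∈ H, h * h' = 1)
    (hΓ : ∀ γ β : MZ, γ ∈ symplecticGroup (Fin 8) ℤ → Com a b γ → γ = 1 + (N : ℤ) • β → zr γ ∈ H)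
    (hI : ∀ k : Submodule ℂ (Matrix ν ν ℂ), (∀ X ∈ k, InG a b X) →
      (∀ h ∈ H, ∀ h', h * h' = 1 → ∀ X ∈ k,
        h.map Complex.ofReal * X * h'.map Complex.ofReal ∈ k) → k = ⊥ ∨ ∀ X, InG a b X → X ∈ k)
    (hu : ¬ ∃ j : ℕ, ∀ h ∈ H, CL.IntM ((q : ℝ) ^ j • h))
    {F : (Fin 8 → Fin 8 → ℂ) → ℂ} (hF : DifferentiableOn ℂ F (PosIm (Fin 8))) {τ₀ : Mat}
    (h₀ : τ₀ ∈ FX a b) (h0 : ∀ h ∈ H, F (act h τ₀) = 0) : ∀ τ ∈ FX a b, F τ = 0 := by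
  intro τ hτ
  have hB : E3.Big a b N (H : Set (Matrix ν ν ℝ)) :=
    ⟨fun g hg => (hH g hg).1, fun g hg => (hH g hg).2.2.2.2, fun g hg h hh => H.mul_mem hg hh,
      fun g hg => (hH g hg).2.1.symm, fun g hg => (hH g hg).2.2.1.symm,
      fun γ β h1 h2 h3 h4 => hΓ γ β h1 ⟨h3, h4⟩ h2⟩
  have hn : E3.ND (H : Set (Matrix ν ν ℝ)) := hB.nd hP.pel hN (fun g hg => (hH g hg).2.2.2.1)
    fun j => by
      by_contra hc
      exact hu ⟨j, fun g hg => by_contra fun h => hc ⟨g, hg, h⟩⟩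
  have hO : E3.Orb (H : Set (Matrix ν ν ℝ)) {w | ∃ h ∈ H, w = act h τ₀} :=
    ⟨hB.sim, hB.inv, by
      rintro _ ⟨g, hg, rfl⟩
      exact inH_act (hH g hg).1 one_pos h₀.1, by
      rintro g hg _ ⟨g', hg', rfl⟩
      exact ⟨g * g', H.mul_mem hg hg',
        (act_mul (den_det_ne_zero (hH g' hg').1 one_pos h₀.1) (den_det_ne_zero (hH g hg).1 one_pos
          (inH_act (hH g' hg').1 one_pos h₀.1))).symm⟩⟩
  refine E3.lim_fix (A := {zr a, zr b}) (z := τ₀) hO ?_ hn subset_rfl ?_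
    ⟨1, H.one_mem, (act_one _).symm⟩ hτ.1 ?_ ?_ hF ?_
  · rintro g hg x (rfl | rfl)
    exacts [hB.ca g hg, hB.cb g hg]
  · intro k hk hs
    exact (hI k (fun X hX => mem_gC.1 (hk hX)) hs).imp_right fun h =>
      le_antisymm hk fun X hX => h X (mem_gC.1 hX)
  · rintro x (rfl | rfl)
    exacts [(hP.cst_comm h₀).1, (hP.cst_comm h₀).2]
  · rintro x (rfl | rfl)
    exacts [(hP.cst_comm hτ).1, (hP.cst_comm hτ).2]
  · rintro _ ⟨g, hg, rfl⟩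
    exact h0 g hg

end M8
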