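import Pool.Agent.Lib.MP_33b3f9_ag.M8.CL.Ev
import Pool.Agent.Lib.MP_33b3f9_ag.M8.CL.Bd
import Pool.Agent.Lib.MP_33b3f9_ag.M8.Tr

/-! The frame of the counting lemma on the fixed locus. -/

set_option autoImplicit false

namespace M8.CL

open M4 M4.CL Matrix Filter Topology MvPolynomial

section generic

variable {ι : Type} [Fintype ι] [DecidableEq ι] {m : ℕ}

theorem sl_sum (x : GS ι m) (n : ℕ) (f : ℕ → HH ι → ℂ) :
    sl x (∑ i ∈ Finset.range n, lift i (f i)) =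
      ∑ i ∈ Finset.range n, lift i (slash i (mx x) (f i)) := by
  funext z
  rw [sl, Finset.sum_apply, Finset.sum_apply, smul_def]
  exact Finset.sum_congr rfl fun i _ => lift_cact i _ _ z

omit [DecidableEq ι] in
theorem lift_inj_at {n : ℕ} {f g : ℕ → HH ι → ℂ} {τ : HH ι}
    (h : ∀ l : ℂ, (∑ i ∈ Finset.range n, lift i (f i)) ⟨l, τ⟩ =
      (∑ i ∈ Finset.range n, lift i (g i)) ⟨l, τ⟩) {i : ℕ} (hi : i < n) : f i τ = g i τ :=
  congrFun (lift_inj (f := fun i _ => f i τ) (g := fun i _ => g i τ) (funext fun x => by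
    simpa only [Finset.sum_apply, lift_apply] using h x.l) hi) τ

theorem setup_of {A : Set (RM ι)} {E : Type} [NormedAddCommGroup E] [NormedSpace ℂ E] (hm : m ≠ 0)
    (V : Germ ι E) (hV : ∀ s, ∀ y ∈ A, cst (V.p s).1 * y = y * cst (V.p s).1)
    (M : ℕ → Submodule ℂ (HH ι → ℂ)) (h1 : (1 : HH ι → ℂ) ∈ M 0)
    (h2 : ∀ i j, ∀ f ∈ M i, ∀ g ∈ M j, f * g ∈ M (i + j)) (h3 : ∀ i, M i ≤ MF ι (8 * i))
    (h4 : ∀ {k : ℕ} {F : CX A → ℂ}, F ∈ resF A (fil M) k → Inv (LvD A m 32) F) {N0 : ℕ}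
    (gen : Fin N0 → CX A → ℂ) (h5 : ∀ {k : ℕ} {F : CX A → ℂ}, F ∈ resF A (FF ι) k →
      Inv (LvD A m 32) F → ∃ r : Fin N0 → CX A → ℂ, (∀ i, r i ∈ resF A (fil M) k) ∧
        F = ∑ i, r i * gen i) :
    ∃ S : Setup (GD A m) (CX A), Con S V ∧ S.A = resF A (fil M) ∧ S.N0 = N0 :=
  ⟨{ F := resF A (FF ι)
     mono := resF_mono (fil_mono _)
     one_mem := mem_resF.2 ⟨1, fil_one MF.one, rfl⟩
     mul_mem := resF_mul (M := FF ι) (fil_mul (M := fun i => MF ι (8 * i))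
       fun i j f hf g hg => by rw [mul_add]; exact MF.mul hf hg)
     sl_mem := fun g hf => by
       obtain ⟨F, hF, rfl⟩ := mem_resF.1 hf
       obtain ⟨μ, h1, h2⟩ := mx_sim g.1
       exact mem_resF.2 ⟨_, FF_cact h2 h1 ((mx_cong g.1).isQ hm) hF, rfl⟩
     I := IX V hV
     prime := fun hf hg h => by
       obtain ⟨F, hF, rfl⟩ := mem_resF.1 hf
       obtain ⟨G, hG, rfl⟩ := mem_resF.1 hg
       rw [← map_mul, res_mem_IX] at h
       rw [res_mem_IX, res_mem_IX]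
       exact V.prime hF hG h
     a := ⟨V.c (1, 0), hV 0⟩
     ev := fun f hf => Eventually.self_of_nhds (p := fun q => f ⟨V.c q, hV q.2⟩ = 0) hf
     Γ := LvD A m 32
     Lv := fun n => LvD A m (32 * m ^ n)
     anti := fun n n' hn x hx =>
       mem_LvD.2 (LvG_anti (mul_dvd_mul_left _ (pow_dvd_pow _ hn)) (mem_LvD.1 hx))
     le := fun n x hx => mem_LvD.2 (LvG_anti (dvd_mul_right _ _) (mem_LvD.1 hx))
     normal := fun n γ hγ h hh => mem_LvD.2 (LvG_normal (mem_LvD.1 hγ) (mem_LvD.1 hh))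
     fin := fun n => LvD_fin (by positivity) _
     conj := fun g n => (LvG_conj hm g.1 n).imp fun n' h x hx => mem_LvD.2 (h x.1 (mem_LvD.1 hx))
     A := resF A (fil M)
     A_mono := resF_mono (fil_mono _)
     A_one := mem_resF.2 ⟨1, fil_one h1, rfl⟩
     A_mul := resF_mul (M := fil M) (fil_mul h2)
     A_le := fun k => Submodule.map_mono (fil_le h3 k)
     A_inv := h4
     N0 := N0
     gen := gen
     fg := h5 }, ⟨rfl, fun _ => res_mem_IX (hV := hV), rfl, rfl, fun _ => rfl⟩, rfl, rfl⟩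

end generic

/-- The two matrices. -/
abbrev AB (a b : MZ) : Set (RM (Fin 8)) := {M4.CL.zr a, M4.CL.zr b}

variable {a b : MZ} {p q m : ℕ}

theorem cx_mem (hP : PEL a b p q) (x : CX (AB a b)) : x.1.t.1 ∈ FX a b :=
  (hP.fx_iff x.1.t.2).2 ⟨(x.2 _ (Or.inl rfl)).symm, (x.2 _ (Or.inr rfl)).symm⟩

theorem cx_of (hP : PEL a b p q) {τ : Mat} (h : τ ∈ FX a b) :
    ∀ x ∈ AB a b, cst τ * x = x * cst τ := by
  rintro x (rfl | rfl)
  exacts [((hP.fx_iff h.1).1 h).1.symm, ((hP.fx_iff h.1).1 h).2.symm]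

theorem fam_eight (β : MZ) : 1 + ((32 : ℕ) : ℤ) • β = 1 + (8 : ℤ) • (4 : ℤ) • β := by
  rw [smul_smul]
  rfl

theorem lv_eq {N : ℕ} {γ : MZ} (h : Lv N γ) : ∃ β : MZ, γ = 1 + (N : ℤ) • β := by
  choose β hβ using h
  refine ⟨Matrix.of β, ?_⟩
  rw [← sub_eq_iff_eq_add']
  ext i j
  exact hβ i j

variable (y : Matrix (Fin 11) Bits ℂ)

theorem PY_inv {k : ℕ} {F : CX (AB a b) → ℂ} (hF : F ∈ resF (AB a b) (fil (PY y)) k) :
    Inv (LvD (AB a b) m 32) F := by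
  obtain ⟨F', hF', rfl⟩ := mem_resF.1 hF
  obtain ⟨f, hf, rfl⟩ := mem_fil.1 hF'
  intro x hx
  obtain ⟨h1, β, h2⟩ := mem_LvD.1 hx
  rw [sl_res, sl_sum]
  refine congrArg _ (Finset.sum_congr rfl fun i _ => ?_)
  obtain ⟨φ, hφ, e⟩ := hf i
  rw [h2] at h1 ⊢
  rw [← e]
  exact congrArg (lift i) (slash_evY y ((sim_zr_iff _).1 h1) (fam_eight β) hφ)

theorem gen_fg (hP : PEL a b p q) {c : Ch a b} {N0 : ℕ} {kk : Fin N0 → ℕ}
    {gg : Fin N0 → HH (Fin 4) → ℂ} (h : Gen c y kk gg) {σ : CX (AB a b) → HH (Fin 4)}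
    (hσ : ∀ x, c.h (σ x) = x.1.t) {k : ℕ} {F : CX (AB a b) → ℂ}
    (hF : F ∈ resF (AB a b) (FF (Fin 8)) k) (hi : Inv (LvD (AB a b) m 32) F) :
    ∃ r : Fin N0 → CX (AB a b) → ℂ, (∀ i, r i ∈ resF (AB a b) (fil (PY y)) k) ∧
      F = ∑ i, r i * fun x => x.1.l ^ kk i * gg i (σ x) := by
  obtain ⟨F', hF', rfl⟩ := mem_resF.1 hF
  obtain ⟨f, hf, rfl⟩ := mem_fil.1 hF'
  have hm : ∀ j < k + 1, (fun z => f j (c.h z)) ∈ Rx.MIX ![a, b] c.h {γ | Lv 32 γ} j :=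
    fun j hj => by
    refine Rx.mem_MIX.2 ⟨f j, hf j, fun γ h1 h2 z => ?_, fun _ => rfl⟩
    obtain ⟨β, e⟩ := lv_eq h1
    have h3 := (sim_zr_iff γ).2 h2.1
    obtain ⟨x, hx⟩ := exists_gd (a := a) (b := b) one_pos (one_dvd m) (by rwa [Nat.cast_one])
      (e.trans (fam_eight _)) (h2.2 0) (h2.2 1)
    have h4 := hi x (mem_LvD.2 ⟨by rwa [hx], β, by rw [hx, ← e]⟩)
    rw [sl_res, sl_sum, hx] at h4
    exact lift_inj_at (fun l => congrFun h4 ⟨⟨l, c.h z⟩, cx_of hP (c.mem z.1 z.2)⟩) hj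
  choose! r hr1 hr2 using fun j (hj : j < k + 1) => h j _ (hm j hj)
  refine ⟨fun i => res _ (∑ j ∈ Finset.range (k + 1), lift (j - kk i) (evY y (r j i))),
    fun i => mem_resF.2 ⟨_, Submodule.sum_mem _ fun j hj => ?_, rfl⟩, ?_⟩
  · rw [Finset.mem_range] at hj
    rcases hr1 j hj i with h0 | ⟨-, h1⟩
    · rw [h0, map_zero, map_zero]
      exact Submodule.zero_mem _
    · exact lift_mem_fil (by omega) ⟨r j i, h1, rfl⟩
  · funext x
    simp only [res_apply, Finset.sum_apply, Pi.mul_apply, lift_apply, Finset.sum_mul]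
    rw [Finset.sum_comm]
    refine Finset.sum_congr rfl fun j hj => ?_
    rw [Finset.mem_range] at hj
    rw [← hσ x, hr2 j hj, Finset.mul_sum]
    refine Finset.sum_congr rfl fun i _ => ?_
    rcases hr1 j hj i with h0 | ⟨h1, -⟩
    · simp [h0]
    · rw [evY_apply, mul_mul_mul_comm, ← pow_add, Nat.sub_add_cancel h1]
      rfl

variable {E : Type} [NormedAddCommGroup E] [NormedSpace ℂ E]

theorem exists_setup (hP : PEL a b p q) {c : Ch a b} {N0 : ℕ} {kk : Fin N0 → ℕ}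
    {gg : Fin N0 → HH (Fin 4) → ℂ} (h : Gen c y kk gg) (hm : m ≠ 0) (V : Germ (Fin 8) E)
    (hV : ∀ s, (V.p s).1 ∈ FX a b) : ∃ S : Setup (GD (AB a b) m) (CX (AB a b)),
      Con S V ∧ S.A = resF (AB a b) (fil (PY y)) ∧ S.N0 = N0 := by
  have hσ : ∀ x : CX (AB a b), ∃ z, c.h z = x.1.t := fun x => by
    obtain ⟨z, h1, h2⟩ := c.sur _ (cx_mem hP x)
    exact ⟨⟨z, h1⟩, Subtype.ext h2⟩
  choose σ hσ using hσ
  refine setup_of hm V (fun s => cx_of hP (hV s)) (PY y)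
    ⟨1, isHomogeneous_one _ _, map_one (evY y)⟩ ?_ ?_ (PY_inv y) _ (gen_fg y hP h hσ)
  · rintro i j _ ⟨φ, hφ, rfl⟩ _ ⟨ψ, hψ, rfl⟩
    exact ⟨φ * ψ, by rw [mul_add]; exact IsHomogeneous.mul hφ hψ, map_mul (evY y) φ ψ⟩
  · rintro i _ ⟨φ, hφ, rfl⟩
    exact evY_mem y hφ

end M8.CL
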