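import Pool.Agent.Lib.MP_33b3f9_ag.M8.GDefs
import Pool.Agent.Lib.MP_33b3f9_ag.M8.TrE
import Pool.Agent.Lib.MP_33b3f9_ag.M4.CL.Gm
import Pool.Agent.Lib.MP_33b3f9_ag.M4.ModSy

/-! The germ in the fixed locus. -/

set_option autoImplicit false

namespace M8.CL

open M4 M4.CL Matrix Filter Topology MvPolynomial

theorem exists_germ {a b : MZ} (c : Ch a b) {d : ℕ} {v : (Fin d → ℂ) → Sy} (hv : AnalyticAt ℂ v 0)
    (hz : InH (mat (v 0))) (hi : Function.Injective (fderiv ℂ v 0)) :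
    ∃ V : Germ (Fin 8) (Fin d → ℂ), (∀ s, (V.p s).1 ∈ FX a b) ∧ V.w 0 = c.f (mat (v 0)) ∧
      (∀ᶠ s in 𝓝 0, V.w s = c.f (mat (v s))) ∧
      Function.Injective (fderiv ℂ (fun s (i j : Fin 8) => V.w s i j) 0) := by
  classical
  have ho : IsOpen {t : Sy | InH (mat t)} := M4.Mo.isOpen_inH (ι := Fin 4)
  have h1 : ∀ᶠ s in 𝓝 0, InH (mat (v s)) := hv.continuousAt.eventually_mem (ho.mem_nhds hz)
  let w : (Fin d → ℂ) → Mat := fun s => c.f (if InH (mat (v s)) then mat (v s) else mat (v 0))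
  have h2 : ∀ s, w s ∈ FX a b := fun s => c.mem _ (by split_ifs with h; exacts [h, hz])
  have h3 : ∀ᶠ s in 𝓝 0, w s = c.f (mat (v s)) := h1.mono fun s hs => by simp only [w, if_pos hs]
  have h4 : AnalyticAt ℂ (fun (s : Fin d → ℂ) (i j : Fin 8) => w s i j) 0 :=
    ((Pool.Agent.Lib.MP_a47f92_an.Osg.analyticOnNhd_of_differentiableOn ho c.hol _ hz).comp
      hv).congr (h3.mono fun s hs => by simp only [Function.comp_apply, hs])
  refine ⟨⟨w, h4, fun s => (h2 s).1.1, (h2 0).1⟩, fun s => ?_, h3.self_of_nhds, h3, ?_⟩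
  · rw [Germ.p, gm_pt _ (h2 s).1]
    exact h2 s
  · have h5 : v =ᶠ[𝓝 0] c.L ∘ fun (s : Fin d → ℂ) (i j : Fin 8) => w s i j := by
      filter_upwards [h1, h3] with s a1 a2
      exact (c.inv _ a1).symm.trans (congrArg c.L a2.symm)
    rw [h5.fderiv_eq, fderiv_comp 0 (c.holL _ (h2 0).1) h4.differentiableAt] at hi
    exact Function.Injective.of_comp hi

end M8.CL
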